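import Pool.Agent.H7.LP.Targets5

/-!
# MP_5607ba_lc, board lpr_modules: row KSP (helper35), countable products
-/

set_option autoImplicit false

open Set Filter Topology

namespace Pool.Agent.H35.LR

open Pool.Agent.H7.LP Pool.Agent.H54.LP Pool.Agent.H93.CP Pool.Agent.H7.LR

/-- KSP: countable products. -/
theorem pf_KSP : T_KSP := by
  classical
  intro G _ _ _ _ hG U hU
  rw [nhds_pi, Filter.mem_pi] at hU
  obtain ⟨I, hI, t, ht, hIt⟩ := hU
  choose R H hP hR using fun i => hG i (t i) (ht i)
  choose C hC hC1 using fun i => (hP i).lc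
  refine ⟨Subgroup.pi I R, Subgroup.pi I H, ⟨?_, ?_, ?_, ?_, ?_⟩, ?_⟩
  · rw [Subgroup.coe_pi]
    exact isOpen_set_pi hI fun i _ => (hP i).op
  · rw [Subgroup.coe_pi]
    exact isClosed_set_pi fun i _ => (hP i).cl
  · intro g hg
    rw [Subgroup.mem_pi] at hg ⊢
    exact fun i hi => (hP i).le (hg i hi)
  · intro h hh r hr
    rw [Subgroup.mem_pi] at hh hr ⊢
    exact fun i hi => (hP i).nor (h i) (hh i hi) (r i) (hr i hi)
  · refine ⟨Set.pi univ fun i => if i ∈ I then C i else {1}, isCompact_univ_pi fun i => ?_, ?_⟩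
    · split_ifs
      · exact hC i
      · exact isCompact_singleton
    · refine Filter.mem_of_superset (set_pi_mem_nhds hI fun i _ => hC1 i) ?_
      intro g hg
      have h1 : ∀ i, ∃ c : G i, (i ∈ I → c ∈ C i ∧ c⁻¹ * g i ∈ R i) ∧ (i ∉ I → c = 1) := by
        intro i
        by_cases hi : i ∈ I
        · obtain ⟨c, h2, h3⟩ := hg i hi
          exact ⟨c, fun _ => ⟨h2, h3⟩, fun h => absurd hi h⟩
        · exact ⟨1, fun h => absurd h hi, fun _ => rfl⟩
      choose c hc hc' using h1
      refine ⟨c, fun i _ => ?_, ?_⟩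
      · by_cases hi : i ∈ I
        · show c i ∈ (if i ∈ I then C i else {1})
          rw [if_pos hi]
          exact (hc i hi).1
        · show c i ∈ (if i ∈ I then C i else {1})
          rw [if_neg hi]
          exact hc' i hi
      · rw [Subgroup.mem_pi]
        exact fun i hi => (hc i hi).2
  · intro r hr
    rw [Subgroup.mem_pi] at hr
    exact hIt fun i hi => hR i (r i) (hr i hi)

end Pool.Agent.H35.LR
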